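import Mathlib

namespace Pool.Agent.P.MP_8a5308_nt

open Finset RatFunc

/-- The q-shifted factorial (a;b)_m, the product of 1 - a b^j over j < m. -/
noncomputable def qP (a b : RatFunc ℚ) (m : ℕ) : RatFunc ℚ := ∏ j ∈ range m, (1 - a * b ^ j)

/-- The Gaussian binomial coefficient in the variable q = X. -/
noncomputable def qB (m j : ℕ) : RatFunc ℚ := qP X X m / (qP X X j * qP X X (m - j))

/-- The factor R_(n,k)(q). -/
noncomputable def R (n k : ℕ) : RatFunc ℚ :=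
  (qP (-X) X n / qP (-X) X k) ^ 4 * (qP (-X) X (2 * n) / qP (-X) X (2 * k)) ^ 2 *
    (qP (X ^ 2) (X ^ 2) k * qP (X ^ 6) (X ^ 6) n /
      (qP (X ^ 2) (X ^ 2) n * qP (X ^ 6) (X ^ 6) k)) ^ 2

/-- The sum F_n(q). -/
noncomputable def F (n : ℕ) : RatFunc ℚ :=
  ∑ k ∈ range (n + 1), (1 - X ^ (8 * k + 1)) / (1 - X) * X ^ (2 * k ^ 2) *
    qB (4 * k) (2 * k) * qB (2 * k) k ^ 2 * R n k

end Pool.Agent.P.MP_8a5308_nt
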