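import Pool.Agent.P.MP_8a5308_nt.Root
import Pool.Agent.P.MP_8a5308_nt.Defs

namespace Pool.Agent.P.MP_8a5308_nt

open Finset Polynomial

section
variable {A : Type*} [CommRing A] (q : A)

/-- The Gaussian binomial coefficient with top `j + k`, by the Pascal recursion. -/
def gb : ℕ → ℕ → A
  | 0, _ => 1
  | _ + 1, 0 => 1
  | j + 1, k + 1 => gb j (k + 1) + q ^ (j + 1) * gb (j + 1) k

lemma allP_succ (m : ℕ) : allP q (m + 1) = allP q m * (1 - q ^ (m + 1)) := prod_range_succ _ _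

lemma gb_spec (j k : ℕ) : gb q j k * allP q j * allP q k = allP q (j + k) := by
  induction j generalizing k with
  | zero => simp [gb, allP]
  | succ j ihj =>
    induction k with
    | zero => simp [gb, allP]
    | succ k ihk =>
      have h1 := ihj (k + 1)
      have e1 : j + 1 + (k + 1) = j + k + 1 + 1 := by ring
      have e2 : j + (k + 1) = j + k + 1 := by ring
      have e3 : j + 1 + k = j + k + 1 := by ring
      rw [e2] at h1
      rw [e3] at ihk
      rw [gb, e1, allP_succ q (j + k + 1)]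
      rw [allP_succ q k] at h1 ⊢
      rw [allP_succ q j] at ihk ⊢
      linear_combination (1 - q ^ (j + 1)) * h1 + q ^ (j + 1) * (1 - q ^ (k + 1)) * ihk

def Bs (k : ℕ) : A := gb q (2 * k) (2 * k) * gb q k k ^ 2

lemma Bs_spec (k : ℕ) : Bs q k * allP q k ^ 4 = allP q (4 * k) := by
  have h1 := gb_spec q (2 * k) (2 * k)
  have h2 := gb_spec q k k
  have e1 : 2 * k + 2 * k = 4 * k := by ring
  have e2 : k + k = 2 * k := by ring
  rw [e1] at h1
  rw [e2] at h2
  rw [← h1, ← h2, Bs]; ring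

def Fs : ℕ → A
  | 0 => 1
  | n + 1 => rho q n * Fs n +
      (∑ i ∈ range (8 * n + 9), q ^ i) * q ^ (2 * (n + 1) ^ 2) * Bs q (n + 1)

lemma Fs_Gs (n : ℕ) : (1 - q) * Fs q n = Gs q (Bs q) n := by
  induction n with
  | zero => simp [Fs, Gs, Bs, gb]
  | succ n ih =>
    rw [Fs, Gs, ← ih, ← mul_neg_geom_sum q (8 * n + 9)]; ring

variable {A' : Type*} [CommRing A'] (f : A →+* A')

lemma map_gb (j k : ℕ) : f (gb q j k) = gb (f q) j k := by
  induction j generalizing k with
  | zero => simp [gb]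
  | succ j ihj =>
    induction k with
    | zero => simp [gb]
    | succ k ihk => rw [gb, gb, map_add, map_mul, map_pow, ihj, ihk]

lemma map_allP (m : ℕ) : f (allP q m) = allP (f q) m := by simp [allP]

lemma map_Bs (k : ℕ) : f (Bs q k) = Bs (f q) k := by simp [Bs, map_gb]

lemma map_rho (k : ℕ) : f (rho q k) = rho (f q) k := by simp [rho]

lemma map_Fs (n : ℕ) : f (Fs q n) = Fs (f q) n := by
  induction n with
  | zero => simp [Fs]
  | succ n ih => simp [Fs, ih, map_rho, map_Bs]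

end

lemma lc_allP {A : Type*} [CommRing A] [IsDomain A] (m : ℕ) :
    (allP (X : A[X]) m).leadingCoeff = (-1) ^ m := by
  induction m with
  | zero => simp [allP]
  | succ m ih =>
    rw [allP_succ, leadingCoeff_mul, ih, pow_succ (-1 : A)]
    congr 1
    have : (1 - X ^ (m + 1) : A[X]) = -(X ^ (m + 1) - C 1) := by simp
    rw [this, leadingCoeff_neg, (monic_X_pow_sub_C (1 : A) (Nat.succ_ne_zero m)).leadingCoeff]

lemma allP_ne {A : Type*} [CommRing A] [IsDomain A] (m : ℕ) : allP (X : A[X]) m ≠ 0 := by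
  rw [← leadingCoeff_ne_zero, lc_allP]
  exact pow_ne_zero _ (by simp)

lemma gb_monic (j k : ℕ) : (gb (X : ℤ[X]) j k).Monic := by
  have h := congrArg leadingCoeff (gb_spec (X : ℤ[X]) j k)
  rw [leadingCoeff_mul, leadingCoeff_mul, lc_allP, lc_allP, lc_allP, mul_assoc, ← pow_add] at h
  have h0 : ((-1 : ℤ)) ^ (j + k) ≠ 0 := pow_ne_zero _ (by simp)
  exact mul_right_cancel₀ h0 (by rw [h, one_mul])

lemma Bs_rec_poly : BRec (X : ℤ[X]) (Bs X) := by
  intro k
  have h1 := Bs_spec (X : ℤ[X]) k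
  have h2 := Bs_spec (X : ℤ[X]) (k + 1)
  have e : 4 * (k + 1) = 4 * k + 1 + 1 + 1 + 1 := by ring
  rw [e, allP_succ, allP_succ, allP_succ, allP_succ, allP_succ, ← h1] at h2
  apply mul_right_cancel₀ (pow_ne_zero 4 (allP_ne (A := ℤ) k))
  linear_combination h2

lemma Bs_rec {A : Type*} [CommRing A] (q : A) : BRec q (Bs q) := by
  intro k
  have h := congrArg (eval₂RingHom (Int.castRingHom A) q) (Bs_rec_poly k)
  have e : eval₂RingHom (Int.castRingHom A) q X = q := by simp
  simp only [map_mul, map_pow, map_sub, map_one, map_Bs, e] at h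
  exact h

lemma mult_allP {z : ℂ} {d : ℕ} (hz : IsPrimitiveRoot z d) (m : ℕ) :
    rootMultiplicity z (allP (X : ℂ[X]) m) = m / d := by
  induction m with
  | zero => simp [allP]
  | succ m ih =>
    have hne := allP_ne (A := ℂ) (m + 1)
    rw [allP_succ] at hne ⊢
    rw [rootMultiplicity_mul hne, ih, Nat.succ_div]
    congr 1
    have e : (1 - X ^ (m + 1) : ℂ[X]) = -(X ^ (m + 1) - 1) := by simp
    have hsep : (1 - X ^ (m + 1) : ℂ[X]).Separable := by
      have h1 : (X ^ (m + 1) - 1 : ℂ[X]).Separable :=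
        X_pow_sub_one_separable_iff.mpr (by exact_mod_cast Nat.succ_ne_zero m)
      exact h1.of_dvd (by rw [e]; exact neg_dvd.mpr dvd_rfl)
    split_ifs with h
    · refine le_antisymm (rootMultiplicity_le_one_of_separable hsep z) ?_
      refine (rootMultiplicity_pos hsep.ne_zero).mpr ?_
      simp [(hz.pow_eq_one_iff_dvd _).mpr h]
    · refine rootMultiplicity_eq_zero ?_
      intro hr
      apply h
      rw [← hz.pow_eq_one_iff_dvd]
      simp only [IsRoot.def, eval_sub, eval_one, eval_pow, eval_X] at hr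
      exact (sub_eq_zero.mp hr).symm

lemma gb_dvd (j k : ℕ) (P : ℤ[X])
    (h : ∀ d : ℕ, ∀ z : ℂ, IsPrimitiveRoot z d → j / d + k / d < (j + k) / d →
      eval₂RingHom (Int.castRingHom ℂ) z P = 0) : gb (X : ℤ[X]) j k ∣ P := by
  classical
  rw [← map_dvd_map (Int.castRingHom ℂ) (RingHom.injective_int _) (gb_monic j k)]
  have eg : (gb (X : ℤ[X]) j k).map (Int.castRingHom ℂ) = gb (X : ℂ[X]) j k := by
    have := map_gb (X : ℤ[X]) (mapRingHom (Int.castRingHom ℂ)) j k
    simpa using this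
  rw [eg]
  by_cases hP : P.map (Int.castRingHom ℂ) = 0
  · rw [hP]; exact dvd_zero _
  have hspec := gb_spec (X : ℂ[X]) j k
  have hne := allP_ne (A := ℂ) (j + k)
  have hg0 : gb (X : ℂ[X]) j k ≠ 0 := by
    intro h0
    rw [← hspec, h0] at hne
    simp at hne
  refine (IsAlgClosed.splits _).dvd_of_roots_le_roots hg0 (Multiset.le_iff_count.mpr fun z => ?_)
  rw [count_roots, count_roots]
  have hz := IsPrimitiveRoot.orderOf z
  have hm := mult_allP hz (j + k)
  rw [← hspec] at hm hne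
  rw [rootMultiplicity_mul hne, rootMultiplicity_mul (left_ne_zero_of_mul hne), mult_allP hz,
    mult_allP hz] at hm
  have hle : (j + k) / orderOf z ≤ j / orderOf z + k / orderOf z + 1 := Nat.add_div_le_div_add_div_add_one _ _ _
  rcases Nat.eq_zero_or_pos (rootMultiplicity z (gb (X : ℂ[X]) j k)) with h0 | h0
  · rw [h0]; exact Nat.zero_le _
  · have h1 := h _ z hz (by omega)
    have h2 : 0 < rootMultiplicity z (P.map (Int.castRingHom ℂ)) := by
      refine (rootMultiplicity_pos hP).mpr ?_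
      rw [IsRoot.def, eval_map]
      exact h1
    omega

lemma Fs_vanish {z : ℂ} {d : ℕ} (hz : IsPrimitiveRoot z d) (hd : 1 < d) (n : ℕ)
    (hn : d ≤ 3 * (n % d)) : eval₂RingHom (Int.castRingHom ℂ) z (Fs X n) = 0 := by
  rw [map_Fs]
  have e : eval₂RingHom (Int.castRingHom ℂ) z X = z := by simp
  rw [e]
  have h := Gs_vanish hz (Bs_rec z) hd n hn
  rw [← Fs_Gs] at h
  exact (mul_eq_zero.mp h).resolve_left (sub_ne_zero.mpr (hz.ne_one hd).symm)

lemma cond (n c d : ℕ) (hc : c = 1 ∨ c = 2) (h : n / d + c * n / d < (n + c * n) / d) :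
    1 < d ∧ d ≤ 3 * (n % d) := by
  rcases Nat.eq_zero_or_pos d with rfl | hd
  · simp at h
  have hd1 : d ≠ 1 := by
    rintro rfl
    simp at h
  refine ⟨by omega, ?_⟩
  by_contra hcon
  have e : n = d * (n / d) + n % d := (Nat.div_add_mod n d).symm
  set s := n / d
  set b := n % d
  have h1 : c * n / d = c * s := by
    have : c * n = c * b + d * (c * s) := by rw [e]; ring
    rw [this, Nat.add_mul_div_left _ _ hd, Nat.div_eq_of_lt (by rcases hc with rfl | rfl <;> omega),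
      zero_add]
  have h2 : (n + c * n) / d = s + c * s := by
    have : n + c * n = (b + c * b) + d * (s + c * s) := by rw [e]; ring
    rw [this, Nat.add_mul_div_left _ _ hd, Nat.div_eq_of_lt (by rcases hc with rfl | rfl <;> omega),
      zero_add]
  omega

theorem poly_dvd (n c : ℕ) (hc : c = 1 ∨ c = 2) : gb (X : ℤ[X]) n (c * n) ∣ Fs X n :=
  gb_dvd n (c * n) _ fun d _ hz h => Fs_vanish hz (cond n c d hc h).1 n (cond n c d hc h).2

noncomputable abbrev φ : ℤ[X] →+* RatFunc ℚ := (aeval (RatFunc.X : RatFunc ℚ)).toRingHom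

lemma φ_X : φ X = RatFunc.X := by simp

lemma one_sub_ne (c : ℚ) (j : ℕ) : (1 - RatFunc.C c * RatFunc.X ^ (j + 1) : RatFunc ℚ) ≠ 0 := by
  have : (1 - RatFunc.C c * RatFunc.X ^ (j + 1) : RatFunc ℚ)
      = algebraMap ℚ[X] (RatFunc ℚ) (1 - C c * X ^ (j + 1)) := by simp
  rw [this]
  refine RatFunc.algebraMap_ne_zero ?_
  intro h
  have := congrArg (eval 0) h
  simp at this

lemma ne1 (j : ℕ) (hj : 0 < j) : (1 - RatFunc.X ^ j : RatFunc ℚ) ≠ 0 := by
  obtain ⟨i, rfl⟩ : ∃ i, j = i + 1 := ⟨j - 1, by omega⟩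
  simpa using one_sub_ne 1 i

lemma ne2 (j : ℕ) (hj : 0 < j) : (1 + RatFunc.X ^ j : RatFunc ℚ) ≠ 0 := by
  obtain ⟨i, rfl⟩ : ∃ i, j = i + 1 := ⟨j - 1, by omega⟩
  simpa using one_sub_ne (-1) i

lemma qP_succ (a b : RatFunc ℚ) (m : ℕ) : qP a b (m + 1) = qP a b m * (1 - a * b ^ m) :=
  prod_range_succ _ _

lemma qP_all (m : ℕ) : qP RatFunc.X RatFunc.X m = allP RatFunc.X m := by
  unfold qP allP
  exact prod_congr rfl fun i _ => by ring

lemma qP_ne1 (c m : ℕ) (hc : 0 < c) : qP (RatFunc.X ^ c) (RatFunc.X ^ c) m ≠ 0 := by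
  unfold qP
  refine prod_ne_zero_iff.mpr fun i _ => ?_
  rw [← pow_succ', ← pow_mul]
  exact ne1 _ (by positivity)

lemma qP_ne2 (m : ℕ) : qP (-RatFunc.X) RatFunc.X m ≠ 0 := by
  unfold qP
  refine prod_ne_zero_iff.mpr fun i _ => ?_
  rw [neg_mul, sub_neg_eq_add, ← pow_succ']
  exact ne2 _ (by positivity)

lemma qB_eq (j k : ℕ) : qB (j + k) j = gb RatFunc.X j k := by
  have h1 : ∀ m, allP (RatFunc.X : RatFunc ℚ) m ≠ 0 := fun m => by
    rw [← qP_all]
    simpa using qP_ne1 1 m one_pos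
  unfold qB
  rw [Nat.add_sub_cancel_left, qP_all, qP_all, qP_all, ← gb_spec, mul_assoc,
    mul_div_cancel_right₀ _ (mul_ne_zero (h1 _) (h1 _))]

lemma R_self (n : ℕ) : R n n = 1 := by
  unfold R
  rw [div_self (qP_ne2 _), div_self (qP_ne2 _),
    div_self (mul_ne_zero (qP_ne1 2 _ (by norm_num)) (qP_ne1 6 _ (by norm_num)))]
  simp

lemma R_succ (n k : ℕ) : R (n + 1) k = rho RatFunc.X n * R n k := by
  unfold R rho
  have e : 2 * (n + 1) = 2 * n + 1 + 1 := by ring
  rw [e, qP_succ, qP_succ, qP_succ, qP_succ, qP_succ]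
  have h1 : (1 - RatFunc.X ^ 2 * (RatFunc.X ^ 2) ^ n : RatFunc ℚ) ≠ 0 := by
    rw [← pow_succ', ← pow_mul]
    exact ne1 _ (by positivity)
  have h2 : (1 - RatFunc.X ^ 6 * (RatFunc.X ^ 6) ^ n : RatFunc ℚ)
      = (1 - RatFunc.X ^ 2 * (RatFunc.X ^ 2) ^ n) *
        (1 + RatFunc.X ^ (2 * n + 2) + RatFunc.X ^ (4 * n + 4)) := by ring
  have h3 := qP_ne1 2 n (by norm_num)
  have h4 := qP_ne1 6 k (by norm_num)
  have h5 := qP_ne2 k
  have h6 := qP_ne2 (2 * k)
  rw [h2]
  generalize (1 - RatFunc.X ^ 2 * (RatFunc.X ^ 2) ^ n : RatFunc ℚ) = w at h1 ⊢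
  field_simp
  ring

lemma F_eq (n : ℕ) : F n = Fs RatFunc.X n := by
  have hq : ∀ m, (1 - RatFunc.X ^ m) / (1 - RatFunc.X)
      = ∑ i ∈ range m, (RatFunc.X : RatFunc ℚ) ^ i := fun m => by
    rw [← mul_neg_geom_sum, mul_div_cancel_left₀]
    simpa using ne1 1 one_pos
  have hB : ∀ k, qB (4 * k) (2 * k) * qB (2 * k) k ^ 2 = Bs RatFunc.X k := fun k => by
    have e1 : 4 * k = 2 * k + 2 * k := by ring
    have e2 : qB (2 * k) k = qB (k + k) k := by rw [two_mul]
    rw [e1, e2, qB_eq, qB_eq, Bs]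
  induction n with
  | zero =>
    have := hB 0
    unfold F
    rw [zero_add, sum_range_one, R_self, hq, mul_assoc _ (qB _ _), hB]
    simp [Fs, Bs, gb]
  | succ n ih =>
    rw [Fs, ← ih]
    unfold F
    rw [sum_range_succ _ (n + 1), R_self, hq, mul_assoc _ (qB _ _), hB, mul_sum, mul_one]
    congr 1
    exact sum_congr rfl fun k _ => by rw [R_succ]; ring

theorem main (n c : ℕ) (hc : c = 1 ∨ c = 2) :
    ∃ A B : ℤ[X], aeval RatFunc.X A = F n ∧ aeval RatFunc.X B = qB ((c + 1) * n) n ∧ B ∣ A := by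
  refine ⟨Fs X n, gb X n (c * n), ?_, ?_, poly_dvd n c hc⟩
  · have := map_Fs X φ n
    rw [φ_X, ← F_eq] at this
    exact this
  · have := map_gb X φ n (c * n)
    rw [φ_X, ← qB_eq] at this
    have e : (c + 1) * n = n + c * n := by ring
    rw [e]
    exact this

end Pool.Agent.P.MP_8a5308_nt
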