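import Pool.Agent.P.MP_8a5308_nt.WZ

namespace Pool.Agent.P.MP_8a5308_nt

open Finset

section
variable {A : Type*} [CommRing A] (q : A)

def rho (n : ℕ) : A :=
  (1 + q ^ (n + 1)) ^ 4 * ((1 + q ^ (2 * n + 1)) * (1 + q ^ (2 * n + 2))) ^ 2 *
    (1 + q ^ (2 * n + 2) + q ^ (4 * n + 4)) ^ 2

/-- The sum multiplied by `1 - q`, as a recursion. -/
def Gs (B : ℕ → A) : ℕ → A
  | 0 => (1 - q) * B 0
  | n + 1 => rho q n * Gs B n + (1 - q ^ (8 * n + 9)) * q ^ (2 * (n + 1) ^ 2) * B (n + 1)

/-- The recursion satisfied by `(q;q)_(4k) / (q;q)_k^4`. -/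
def BRec (B : ℕ → A) : Prop :=
  ∀ k, B (k + 1) * (1 - q ^ (k + 1)) ^ 4 =
    B k * ((1 - q ^ (4 * k + 1)) * (1 - q ^ (4 * k + 2)) * (1 - q ^ (4 * k + 3)) *
      (1 - q ^ (4 * k + 4)))

def evenP (m : ℕ) : A := ∏ i ∈ range m, (1 - q ^ (2 * i + 2))
def allP (m : ℕ) : A := ∏ i ∈ range m, (1 - q ^ (i + 1))

lemma B_allP {B : ℕ → A} (hB : BRec q B) (K : ℕ) :
    B K * allP q K ^ 4 = B 0 * (oddP q (2 * K) * evenP q (2 * K)) := by
  induction K with
  | zero => simp [allP, oddP, evenP]
  | succ K ih =>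
    have e : 2 * (K + 1) = 2 * K + 1 + 1 := by ring
    have e1 : allP q (K + 1) = allP q K * (1 - q ^ (K + 1)) := prod_range_succ _ _
    rw [e, e1]
    unfold oddP evenP at *
    rw [prod_range_succ, prod_range_succ, prod_range_succ, prod_range_succ]
    have := hB K
    linear_combination (allP q K ^ 4) * this + ((1 - q ^ (4 * K + 1)) * (1 - q ^ (4 * K + 2)) *
      (1 - q ^ (4 * K + 3)) * (1 - q ^ (4 * K + 4))) * ih

lemma numP_one (m : ℕ) : numP q 1 m = oddP q m ^ 2 := by
  unfold numP oddP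
  rw [← prod_pow]
  exact prod_congr rfl fun i _ => by ring

lemma Sh_one {B : ℕ → A} (hB : BRec q B) (K : ℕ) :
    B 0 * (evenP q (2 * K) * Sh q 1 K) = oddP q K ^ 2 * allP q K ^ 4 * Gs q B K := by
  induction K with
  | zero => simp [allP, oddP, evenP, Sh, Gs]; ring
  | succ K ih =>
    have e : 2 * (K + 1) = 2 * K + 1 + 1 := by ring
    have e1 : allP q (K + 1) = allP q K * (1 - q ^ (K + 1)) := prod_range_succ _ _
    have e2 : oddP q (K + 1) = oddP q K * (1 - q ^ (2 * K + 1)) := prod_range_succ _ _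
    have e3 : evenP q (2 * (K + 1)) = evenP q (2 * K) * (1 - q ^ (2 * (2 * K) + 2)) *
        (1 - q ^ (2 * (2 * K + 1) + 2)) := by
      rw [e]; unfold evenP; rw [prod_range_succ, prod_range_succ]
    have e4 := B_allP q hB (K + 1)
    have e5 : 2 * (K + 1) = 2 * K + 2 := by ring
    rw [Sh, Gs, numP_one]
    rw [e5] at e4 e3 ⊢
    rw [e3, e1] at e4
    rw [e3, e2, e1]
    unfold rho
    linear_combination ((1 - q ^ (4 * K + 2)) * (1 - q ^ (4 * K + 4)) * (1 - q ^ (6 * K + 6))) ^ 2 * ih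
      - (oddP q K * (1 - q ^ (2 * K + 1))) ^ 2 * ((1 - q ^ (8 * K + 9)) * q ^ (2 * (K + 1) ^ 2)) * e4

end

section
variable {F : Type*} [Field F] {z : F} {d : ℕ} (hz : IsPrimitiveRoot z d)
include hz

lemma one_sub_pow_ne {j : ℕ} (h0 : 0 < j) (hj : j < d) : 1 - z ^ j ≠ 0 :=
  sub_ne_zero.mpr (hz.pow_ne_one_of_pos_of_lt h0.ne' hj).symm

lemma pow_block (c s j : ℕ) : z ^ (c * (s * d) + j) = z ^ j := by
  rw [pow_add, mul_comm s d, ← mul_assoc, mul_comm c d, mul_assoc, pow_mul, hz.pow_eq_one,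
    one_pow, one_mul]

lemma Sh_one_zero (hd : Nat.Coprime 6 d) (hd1 : 1 < d) : Sh z 1 ((d - 1) / 4) = 0 := by
  set K := (d - 1) / 4 with hK
  have hz0 : z ≠ 0 := hz.ne_zero (by omega)
  have hodd : d % 2 = 1 := by
    have : Nat.Coprime 2 d := Nat.Coprime.coprime_dvd_left (by norm_num) hd
    rw [Nat.coprime_two_left] at this
    exact Nat.odd_iff.mp this
  have h3 : d ≠ 3 := by
    rintro rfl
    norm_num at hd
  have hO : oddP z (2 * K + 2) = 0 := by
    unfold oddP
    refine prod_eq_zero (i := d / 2) (mem_range.mpr (by omega)) ?_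
    have : 2 * (d / 2) + 1 = d := by omega
    rw [this, hz.pow_eq_one, sub_self]
  have hQ : IsPrimitiveRoot (z ^ 6) d := hz.pow_of_coprime 6 hd
  have key : ∀ i, i ≤ K → Sh z ((z ^ 6) ^ (K - i)) K = 0 := by
    intro i
    induction i with
    | zero =>
      intro _
      have h := wz z ((z ^ 6) ^ K) K
      rw [hO, ← pow_mul, sub_self] at h
      have h1 : 1 - z ^ (6 * K) * z ^ (6 * K + 6) ≠ 0 := by
        have : z ^ (6 * K) * z ^ (6 * K + 6) = (z ^ 6) ^ (2 * K + 1) := by ring
        rw [this]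
        exact one_sub_pow_ne hQ (by omega) (by omega)
      have h2 : z ^ (6 * K) * (1 - z ^ (6 * K) * z ^ (6 * K + 6)) * Sh z (z ^ (6 * K)) K = 0 := by
        linear_combination h
      rw [Nat.sub_zero, ← pow_mul]
      exact (mul_eq_zero.mp h2).resolve_left (mul_ne_zero (pow_ne_zero _ hz0) h1)
    | succ i ih =>
      intro hi
      have h := wz z ((z ^ 6) ^ (K - (i + 1))) K
      have e : (z ^ 6) ^ (K - (i + 1)) * z ^ 6 = (z ^ 6) ^ (K - i) := by
        rw [← pow_succ]; congr 1; omega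
      rw [hO, e, ih (by omega)] at h
      have h1 : 1 - (z ^ 6) ^ (K - (i + 1)) * z ^ (6 * K + 6) ≠ 0 := by
        have : (z ^ 6) ^ (K - (i + 1)) * z ^ (6 * K + 6) = (z ^ 6) ^ (K - (i + 1) + K + 1) := by
          ring
        rw [this]
        exact one_sub_pow_ne hQ (by omega) (by omega)
      have h2 : z ^ (6 * K) * (1 - (z ^ 6) ^ (K - (i + 1)) * z ^ (6 * K + 6)) *
          Sh z ((z ^ 6) ^ (K - (i + 1))) K = 0 := by
        linear_combination h
      exact (mul_eq_zero.mp h2).resolve_left (mul_ne_zero (pow_ne_zero _ hz0) h1)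
  have := key K le_rfl
  simpa using this

variable {B : ℕ → F} (hB : BRec z B)
include hB

lemma Gs_first (hd : Nat.Coprime 6 d) (hd1 : 1 < d) : Gs z B ((d - 1) / 4) = 0 := by
  set K := (d - 1) / 4 with hK
  have h := Sh_one z hB K
  rw [Sh_one_zero hz hd hd1] at h
  have h1 : oddP z K ≠ 0 := by
    unfold oddP
    exact prod_ne_zero_iff.mpr fun i hi =>
      one_sub_pow_ne hz (by omega) (by have := mem_range.mp hi; omega)
  have h2 : allP z K ≠ 0 := by
    unfold allP
    exact prod_ne_zero_iff.mpr fun i hi =>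
      one_sub_pow_ne hz (by omega) (by have := mem_range.mp hi; omega)
  have h3 : oddP z K ^ 2 * allP z K ^ 4 * Gs z B K = 0 := by linear_combination -h
  exact (mul_eq_zero.mp h3).resolve_left (mul_ne_zero (pow_ne_zero _ h1) (pow_ne_zero _ h2))

lemma BRec_shift (s : ℕ) : BRec z (fun t => B (s * d + t)) := by
  intro k
  have h := hB (s * d + k)
  have e0 : z ^ (s * d + k + 1) = z ^ (k + 1) := by
    rw [← pow_block hz 1 s (k + 1)]; congr 1; ring
  have e : ∀ i, z ^ (4 * (s * d + k) + i) = z ^ (4 * k + i) := fun i => by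
    rw [← pow_block hz 4 s (4 * k + i)]; congr 1; ring
  rw [e0, e, e, e, e] at h
  exact h

lemma B_zero (t : ℕ) (ht : t < d) (h4 : d ≤ 4 * t) : B t = 0 := by
  induction t with
  | zero => omega
  | succ t ih =>
    have h := hB t
    have h1 : (1 - z ^ (t + 1)) ^ 4 ≠ 0 := pow_ne_zero _ (one_sub_pow_ne hz (by omega) ht)
    have h2 : B t * ((1 - z ^ (4 * t + 1)) * (1 - z ^ (4 * t + 2)) * (1 - z ^ (4 * t + 3)) *
        (1 - z ^ (4 * t + 4))) = 0 := by
      rcases le_or_gt d (4 * t) with k | k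
      · rw [ih (by omega) k, zero_mul]
      · have : d = 4 * t + 1 ∨ d = 4 * t + 2 ∨ d = 4 * t + 3 ∨ d = 4 * t + 4 := by omega
        rcases this with e | e | e | e <;> rw [← e, hz.pow_eq_one] <;> ring
    rw [h2] at h
    exact (mul_eq_zero.mp h).resolve_right h1

lemma propagate (s t0 : ℕ) (h0 : Gs z B (s * d + t0) = 0) (h4 : d ≤ 4 * (t0 + 1)) (t : ℕ)
    (h1 : t0 ≤ t) (h2 : t < d) : Gs z B (s * d + t) = 0 := by
  induction t, h1 using Nat.le_induction with
  | base => exact h0
  | succ t ht ih =>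
    have e : s * d + (t + 1) = s * d + t + 1 := by ring
    have hb : B (s * d + (t + 1)) = 0 :=
      B_zero hz (BRec_shift hz hB s) (t + 1) h2 (by omega)
    rw [e] at hb ⊢
    rw [Gs, ih (by omega), hb]; ring

omit hB in
lemma rho_block (s t : ℕ) : rho z (s * d + t) = rho z t := by
  unfold rho
  have e0 : z ^ (s * d + t + 1) = z ^ (t + 1) := by
    rw [← pow_block hz 1 s (t + 1)]; congr 1; ring
  have e2 : ∀ i, z ^ (2 * (s * d + t) + i) = z ^ (2 * t + i) := fun i => by
    rw [← pow_block hz 2 s (2 * t + i)]; congr 1; ring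
  have e4 : ∀ i, z ^ (4 * (s * d + t) + i) = z ^ (4 * t + i) := fun i => by
    rw [← pow_block hz 4 s (4 * t + i)]; congr 1; ring
  rw [e0, e2, e2, e4]

omit hB in
lemma Gs_block (s : ℕ) (h0 : Gs z B (s * d) = (1 - z) * B (s * d)) (t : ℕ) :
    Gs z B (s * d + t) = Gs z (fun t => B (s * d + t)) t := by
  induction t with
  | zero => simpa [Gs] using h0
  | succ t ih =>
    have e : s * d + (t + 1) = s * d + t + 1 := by ring
    have e8 : z ^ (8 * (s * d + t) + 9) = z ^ (8 * t + 9) := by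
      rw [← pow_block hz 8 s (8 * t + 9)]; congr 1; ring
    have e2 : z ^ (2 * (s * d + t + 1) ^ 2) = z ^ (2 * (t + 1) ^ 2) := by
      rw [← pow_block hz (2 * (s * d) + 4 * (t + 1)) s (2 * (t + 1) ^ 2)]; congr 1; ring
    rw [e, Gs, Gs, ih, rho_block hz, e8, e2, e]

lemma coprime_case (hd : Nat.Coprime 6 d) (hd1 : 1 < d) (s : ℕ) :
    Gs z B (s * d + (d - 1) / 4) = 0 := by
  induction s with
  | zero => simpa using Gs_first hz hB hd hd1
  | succ s ih =>
    have h1 := propagate hz hB s _ ih (by omega) (d - 1) (by omega) (by omega)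
    have e : (s + 1) * d = s * d + (d - 1) + 1 := by
      rw [add_mul, one_mul]; omega
    have h0 : Gs z B ((s + 1) * d) = (1 - z) * B ((s + 1) * d) := by
      have e8 : z ^ (8 * (s * d + (d - 1)) + 9) = z := by
        have : 8 * (s * d + (d - 1)) + 9 = 8 * ((s + 1) * d) + 1 := by rw [e]; ring
        rw [this, pow_block hz, pow_one]
      have e2 : z ^ (2 * (s * d + (d - 1) + 1) ^ 2) = 1 := by
        rw [← e]
        have : 2 * ((s + 1) * d) ^ 2 = (2 * ((s + 1) * d)) * ((s + 1) * d) + 0 := by ring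
        rw [this, pow_block hz, pow_zero]
      conv_lhs => rw [e, Gs, h1, e8, e2, ← e]
      ring
    rw [Gs_block hz (s + 1) h0]
    exact Gs_first hz (BRec_shift hz hB (s + 1)) hd hd1

lemma rho_case (j : ℕ) (hj : rho z j = 0) (hjd : j + 1 < d) (h4 : d ≤ 4 * (j + 1)) (s : ℕ) :
    Gs z B (s * d + (j + 1)) = 0 := by
  have hb : B (s * d + (j + 1)) = 0 := B_zero hz (BRec_shift hz hB s) (j + 1) hjd h4
  have e : s * d + (j + 1) = s * d + j + 1 := by ring
  rw [e] at hb ⊢
  rw [Gs, rho_block hz, hj, hb]; ring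

theorem Gs_vanish (hd1 : 1 < d) (n : ℕ) (hn : d ≤ 3 * (n % d)) : Gs z B n = 0 := by
  have hlt : n % d < d := Nat.mod_lt _ (by omega)
  have e : n = n / d * d + n % d := (Nat.div_add_mod' n d).symm
  rw [e]
  set s := n / d
  set b := n % d
  have half : ∀ c, d = 2 * c → z ^ c = -1 := by
    intro c hc
    have h1 : (z ^ c) ^ 2 = 1 := by rw [← pow_mul, mul_comm, ← hc, hz.pow_eq_one]
    rcases sq_eq_one_iff.mp h1 with h | h
    · exact absurd h (hz.pow_ne_one_of_pos_of_lt (by omega) (by omega))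
    · exact h
  rcases Nat.even_or_odd' d with ⟨c, hc | hc⟩
  · rcases Nat.even_or_odd' c with ⟨u, hu | hu⟩
    · obtain ⟨j, rfl⟩ : ∃ j, u = j + 1 := ⟨u - 1, by omega⟩
      have hr : rho z j = 0 := by
        unfold rho
        have : z ^ (2 * j + 2) = -1 := half _ (by omega)
        rw [this]; ring
      exact propagate hz hB s _ (rho_case hz hB j hr (by omega) (by omega) s) (by omega) b
        (by omega) hlt
    · have hr : rho z u = 0 := by
        unfold rho
        have : z ^ (2 * u + 1) = -1 := half _ (by omega)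
        rw [this]; ring
      exact propagate hz hB s _ (rho_case hz hB u hr (by omega) (by omega) s) (by omega) b
        (by omega) hlt
  · by_cases h3 : 3 ∣ d
    · obtain ⟨u, hu⟩ := h3
      obtain ⟨j, rfl⟩ : ∃ j, u = j + 1 := ⟨u - 1, by omega⟩
      have hr : rho z j = 0 := by
        unfold rho
        have h1 : 1 - z ^ (2 * j + 2) ≠ 0 := one_sub_pow_ne hz (by omega) (by omega)
        have h2 : (1 - z ^ (2 * j + 2)) * (1 + z ^ (2 * j + 2) + z ^ (4 * j + 4)) = 0 := by
          have : z ^ (6 * j + 6) = 1 := by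
            have : 6 * j + 6 = d * 2 := by omega
            rw [this, pow_mul, hz.pow_eq_one, one_pow]
          linear_combination -this
        rw [(mul_eq_zero.mp h2).resolve_left h1]; ring
      exact propagate hz hB s _ (rho_case hz hB j hr (by omega) (by omega) s) (by omega) b
        (by omega) hlt
    · have hd : Nat.Coprime 6 d := by
        have h2 : Nat.Coprime 2 d := by
          rw [Nat.coprime_two_left]; exact ⟨c, hc⟩
        have h3' : Nat.Coprime 3 d := (Nat.Prime.coprime_iff_not_dvd Nat.prime_three).mpr h3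
        exact Nat.Coprime.mul_left h2 h3'
      exact propagate hz hB s _ (coprime_case hz hB hd hd1 s) (by omega) b (by omega) hlt

end

end Pool.Agent.P.MP_8a5308_nt
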