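import Mathlib

namespace Pool.Agent.P.MP_8a5308_nt

open Finset

section
variable {A : Type*} [CommRing A] (q : A)

/-- The product of the factors `1 - q^(2i+1)`, `i < m`. -/
def oddP (m : ℕ) : A := ∏ i ∈ range m, (1 - q ^ (2 * i + 1))

/-- The parameter dependent numerator. -/
def numP (a : A) (m : ℕ) : A := ∏ i ∈ range m, ((1 - a * q ^ (2 * i + 1)) * (a - q ^ (2 * i + 1)))

/-- The parametric truncated sum with all denominators cleared. -/
def Sh (a : A) : ℕ → A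
  | 0 => 1 - q
  | K + 1 => (1 - q ^ (4 * K + 2)) * (1 - q ^ (4 * K + 4)) * ((1 - a * q ^ (6 * K + 6)) *
      (a - q ^ (6 * K + 6))) * Sh a K
      + (1 - q ^ (8 * K + 9)) * q ^ (2 * (K + 1) ^ 2) * oddP q (2 * K + 2) * numP q a (K + 1)

def DP (a : A) (m : ℕ) : A := ∏ i ∈ range m, ((1 - a * q ^ (2 * i + 3)) * (a * q ^ 3 - q ^ (2 * i)))

def V (a : A) (m : ℕ) : A := ∏ i ∈ range m, ((1 - a * q ^ (2 * i + 7)) * (a - q ^ (2 * i + 1)))

lemma numP_eq (a : A) (m : ℕ) : numP q a (m + 3) =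
    (1 - a * q) * (1 - a * q ^ 3) * (1 - a * q ^ 5) * (a - q ^ (2 * m + 1)) *
      (a - q ^ (2 * m + 3)) * (a - q ^ (2 * m + 5)) * V q a m := by
  induction m with
  | zero => simp [numP, V, prod_range_succ]; ring
  | succ m ih =>
    have e : numP q a (m + 1 + 3) = numP q a (m + 3) *
        ((1 - a * q ^ (2 * (m + 3) + 1)) * (a - q ^ (2 * (m + 3) + 1))) := prod_range_succ _ _
    have e2 : V q a (m + 1) = V q a m * ((1 - a * q ^ (2 * m + 7)) * (a - q ^ (2 * m + 1))) :=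
      prod_range_succ _ _
    rw [e, e2, ih]; ring

lemma numP_shift_eq (a : A) (m : ℕ) : numP q (a * q ^ 6) (m + 3) =
    (1 - a * q ^ (2 * m + 7)) * (1 - a * q ^ (2 * m + 9)) * (1 - a * q ^ (2 * m + 11)) *
      (a * q ^ 6 - q) * (a * q ^ 6 - q ^ 3) * (a * q ^ 6 - q ^ 5) * q ^ (6 * m) * V q a m := by
  induction m with
  | zero => simp [numP, V, prod_range_succ]; ring
  | succ m ih =>
    have e : numP q (a * q ^ 6) (m + 1 + 3) = numP q (a * q ^ 6) (m + 3) *
        ((1 - a * q ^ 6 * q ^ (2 * (m + 3) + 1)) * (a * q ^ 6 - q ^ (2 * (m + 3) + 1))) :=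
      prod_range_succ _ _
    have e2 : V q a (m + 1) = V q a m * ((1 - a * q ^ (2 * m + 7)) * (a - q ^ (2 * m + 1))) :=
      prod_range_succ _ _
    rw [e, e2, ih]; ring

lemma DP_eq (a : A) (m : ℕ) : DP q a (m + 2) =
    (1 - a * q ^ 3) * (1 - a * q ^ 5) * (a * q ^ 3 - 1) * (a * q ^ 3 - q ^ 2) * q ^ (3 * m) *
      V q a m := by
  induction m with
  | zero => simp [DP, V, prod_range_succ]; ring
  | succ m ih =>
    have e : DP q a (m + 1 + 2) = DP q a (m + 2) *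
        ((1 - a * q ^ (2 * (m + 2) + 3)) * (a * q ^ 3 - q ^ (2 * (m + 2)))) :=
      prod_range_succ _ _
    have e2 : V q a (m + 1) = V q a m * ((1 - a * q ^ (2 * m + 7)) * (a - q ^ (2 * m + 1))) :=
      prod_range_succ _ _
    rw [e, e2, ih]; ring

/-- The telescoped identity for the parametric sum. -/
theorem wz (a : A) (K : ℕ) :
    q ^ 3 * (a - q ^ (6 * K)) * Sh q (a * q ^ 6) K + q ^ (6 * K) * (1 - a * q ^ (6 * K + 6)) * Sh q a K
      = q ^ (2 * K ^ 2 + 7 * K) * (1 + a * q ^ 3) * oddP q (2 * K + 2) * DP q a K := by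
  have base : ∀ K : ℕ, K ≤ 2 → q ^ 3 * (a - q ^ (6 * K)) * Sh q (a * q ^ 6) K
      + q ^ (6 * K) * (1 - a * q ^ (6 * K + 6)) * Sh q a K
      = q ^ (2 * K ^ 2 + 7 * K) * (1 + a * q ^ 3) * oddP q (2 * K + 2) * DP q a K := by
    intro K hK
    interval_cases K
    · simp [Sh, oddP, DP, prod_range_succ]; ring
    · simp [Sh, oddP, DP, numP, prod_range_succ]; ring
    · simp [Sh, oddP, DP, numP, prod_range_succ]; ring
  induction K with
  | zero => exact base 0 (by norm_num)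
  | succ K ih =>
    rcases le_or_gt (K + 1) 2 with h | h
    · exact base _ h
    · obtain ⟨m, rfl⟩ : ∃ m, K = m + 2 := ⟨K - 2, by omega⟩
      have e1 : oddP q (2 * (m + 2 + 1) + 2) = oddP q (2 * (m + 2) + 2) *
          (1 - q ^ (2 * (2 * (m + 2) + 2) + 1)) * (1 - q ^ (2 * (2 * (m + 2) + 2 + 1) + 1)) := by
        have : 2 * (m + 2 + 1) + 2 = 2 * (m + 2) + 2 + 1 + 1 := by ring
        rw [this]
        unfold oddP
        rw [prod_range_succ, prod_range_succ]
      have e2 : DP q a (m + 2 + 1) = DP q a (m + 2) *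
          ((1 - a * q ^ (2 * (m + 2) + 3)) * (a * q ^ 3 - q ^ (2 * (m + 2)))) :=
        prod_range_succ _ _
      have e3 : numP q a (m + 2 + 1) = _ := numP_eq q a m
      have e4 : numP q (a * q ^ 6) (m + 2 + 1) = _ := numP_shift_eq q a m
      rw [Sh.eq_2 q a (m + 2), Sh.eq_2 q (a * q ^ 6) (m + 2), e1, e2, e3, e4]
      rw [DP_eq] at ih ⊢
      generalize Sh q (a * q ^ 6) (m + 2) = S1 at ih ⊢
      generalize Sh q a (m + 2) = S2 at ih ⊢
      generalize oddP q (2 * (m + 2) + 2) = O at ih ⊢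
      generalize V q a m = W at ih ⊢
      linear_combination ((1 - q ^ (4 * (m + 2) + 2)) * (1 - q ^ (4 * (m + 2) + 4)) * q ^ 6 *
        (1 - a * q ^ (6 * (m + 3) + 6)) * (a - q ^ (6 * (m + 3)))) * ih

end

end Pool.Agent.P.MP_8a5308_nt
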